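import Pool.Agent.U582.NP.Str
import Pool.Agent.U582.NP.PkgFAM
import Pool.Agent.U582.NP.PkgLG
import Pool.Agent.U582.NP.Orbm
import Pool.Agent.NH29.GK.Ah

/-!
MP_70ba79_ag, Q1: degrees of the maps from affine curves to the complements of at least `n + 1`
Zariski-general hypersurface sections of an arbitrary projective variety of dimension `n`, with sum
of the degrees at least `2 n`, and to their strata and finite covers.

Let `k` be a field of characteristic zero, and let `V` be a closed subset of projective space, given
by forms over `k`, of dimension at most `n`, with arbitrary singularities. Let `q ≥ n + 1`, let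
`d_1, …, d_q` be positive integers, and let `K` be an algebraically closed field which contains `k`.

THEOREM. There are a nonzero polynomial `Φ`, with coefficients in `k`, in the coefficients of `q`
forms of degrees `d_1, …, d_q`, and a number `B ≥ 1`, with the following property. Let
`F = (F_1, …, F_q)` be forms of degrees `d_1, …, d_q` over `K` with `Φ (F) ≠ 0`, let `W` be a closed
subset of a projective space over `K` and `g` a morphism from `W` to `V` given by forms of degree
`e ≥ 1` without common zero on `W` (so `g` is finite), and let `C` be a proper subset of the indices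
(for instance the empty set). Let `X` be the set of the points `x` of `W` with `F_c (g (x)) = 0` for
`c ∈ C` and `F_b (g (x)) ≠ 0` for `b ∉ C`, an affine variety. Let `f` be a morphism from a smooth
affine curve over `K` (with smooth completion of genus `p`, and with `s` points removed) to `X`, or,
more generally, to the set of the points of `W` with `F_c (g (x)) = 0`, `c ∈ C`, which is not contained
in the divisors `F_b (g (x)) = 0`, `b ∉ C`, and meets them with multiplicities at least `B` (in the
sense of Campana). Let `χ = 2 p - 2 + s`, let `deg f` be the degree of the pullback of `O (1)` to the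
completion of the curve, and let `δ` be the degree of the map from the curve to its image under
`g ∘ f` (`0` if `f` is constant).

(1) If `2 n + 1 ≤ d_1 + … + d_q + |C|`, then `e deg f ≤ B max (χ, 0)`.
(2) If `2 n ≤ d_1 + … + d_q + |C|`, then `e deg f ≤ B max (χ, δ)`.

For `W = V`, `g` the identity, `deg f` is the product of `δ` and of the degree of the closure of the
image of `f`, so that (2) says that this degree is at most `B max (χ / δ, 1)`: this is the assertion of
Q1, with empty exceptional set, and with a linear function `β`. The constant `B` depends only on `V`,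
`K` and the degrees `d_b`, but not on `F`, `W`, `g`, `e`, or `C`.

The proof: a sequence of counterexamples gives a point over an ultraproduct of function fields, whose
coordinates generate a field `K'` over the ultrapower of `K`; the coefficients of the forms become
algebraically independent over `k`, so that `K'` is of log general type if its transcendence degree is
`w` and `2 n + 2 ≤ d_1 + … + d_q + |C| + w` (library `TH145/GL`); suitable powers of the values of the
`F_b` are units outside of few places, over which the coordinates are algebraic, and the theory of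
library `N131/FM` (jets of units, differential fields of functions of small height) bounds the heights
of the log pluricanonical forms of `K'` at such points (`Pool.Agent.U582.NP.Core`). The case
`w = 1` of (2) is that of curves of bounded degree (`Pool.Agent.U582.NP.One`). The constant `1` is
replaced by `0` in (1) with endomorphisms of the punctured line and of elliptic curves.
-/

set_option autoImplicit false

namespace Pool.Agent.Results.MP_70ba79_ag.DimensionPlusOneComponents

open MvPolynomial FF Pool.Agent.W603.LV Pool.Agent.W603.PV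
open Pool.Agent.W602.GT (coords)

/-- The closed subset of the projective space of dimension `M` given by the forms in `V` has
dimension at most `n`: there are `n + 1` linear forms without common zero on it. -/
def DimLE {k : Type} [Field k] {M : ℕ} (V : Set (MvPolynomial (Fin (M + 1)) k)) (n : ℕ) : Prop :=
  ∃ ℓ : Fin (n + 1) → MvPolynomial (Fin (M + 1)) k, (∀ j, (ℓ j).IsHomogeneous 1) ∧
    ∀ y : Fin (M + 1) → AlgebraicClosure k,
      (∀ H ∈ V, aeval y H = 0) → (∀ j, aeval y (ℓ j) = 0) → y = 0

/-- The indices of the coefficients of `q` forms of degrees `d i` in `M + 1` variables. -/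
abbrev Index (M : ℕ) {q : ℕ} (d : Fin q → ℕ) : Type :=
  (i : Fin q) × {β : Fin (M + 1) →₀ ℕ // β.degree = d i}

/-- `F` is a family of forms of degrees `d i`, and `Φ (F) ≠ 0`. -/
def General {k : Type} [Field k] {M q : ℕ} {K : Type} [Field K] [Algebra k K] {d : Fin q → ℕ}
    (Φ : MvPolynomial (Index M d) k) (F : Fin q → MvPolynomial (Fin (M + 1)) K) : Prop :=
  (∀ i, (F i).IsHomogeneous (d i)) ∧ aeval (fun s : Index M d => coeff s.2.1 (F s.1)) Φ ≠ 0

/-- The point with the coordinates `G j (y)`. -/
noncomputable def image {K : Type} [Field K] {m M : ℕ} (G : Fin (M + 1) → MvPolynomial (Fin (m + 1)) K)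
    {L : Type} [Field L] [Algebra K L] (y : Fin (m + 1) → L) : Fin (M + 1) → L :=
  fun j => aeval y (G j)

/-- `W` is a set of forms, and the forms `G j` of degree `e ≥ 1` define a morphism from the closed
subset `W = 0` of the projective space of dimension `m` to the closed subset `V = 0` of the projective
space of dimension `M`: they have no common zero on `W = 0`. -/
structure Morphism {k K : Type} [Field k] [Field K] [Algebra k K] {m M : ℕ}
    (V : Set (MvPolynomial (Fin (M + 1)) k)) (W : Set (MvPolynomial (Fin (m + 1)) K))
    (G : Fin (M + 1) → MvPolynomial (Fin (m + 1)) K) (e : ℕ) : Prop where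
  forms : ∀ H ∈ W, ∃ a, H.IsHomogeneous a
  pos : 0 < e
  degree : ∀ j, (G j).IsHomogeneous e
  noZero : ∀ y : Fin (m + 1) → K, (∀ H ∈ W, aeval y H = 0) → image G y = 0 → y = 0
  maps : ∀ y : Fin (m + 1) → K, (∀ H ∈ W, aeval y H = 0) → ∀ H ∈ V, aeval (image G y) H = 0

/-- The vector `f` of elements of the function field `L` is the vector of homogeneous coordinates of
a morphism from the smooth projective curve with function field `L` to the set of the points of
`W = 0` with `F c (G) = 0`, `c ∈ C`. It is not contained in `F b (G) = 0`, `b ∉ C`, and outside of the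
finite set `S` of points of the curve it meets these divisors nowhere, or with multiplicity at
least `B`. -/
structure OrbifoldMap {K : Type} [Field K] {m M q : ℕ} (W : Set (MvPolynomial (Fin (m + 1)) K))
    (G : Fin (M + 1) → MvPolynomial (Fin (m + 1)) K) (e : ℕ) (d : Fin q → ℕ)
    (F : Fin q → MvPolynomial (Fin (M + 1)) K) (C : Finset (Fin q)) (B : ℕ) {L : Type} [Field L]
    [Algebra K L] (S : Finset (Place K L)) (f : Fin (m + 1) → L) : Prop where
  ne : f ≠ 0
  onW : ∀ H ∈ W, aeval f H = 0
  onC : ∀ c ∈ C, aeval (image G f) (F c) = 0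
  off : ∀ b, b ∉ C → aeval (image G f) (F b) ≠ 0
  contact : ∀ b, b ∉ C → ∀ P ∉ S, P.ord (aeval (image G f) (F b)) - d b * (e * pord P f) = 0 ∨
    B ≤ P.ord (aeval (image G f) (F b)) - d b * (e * pord P f)

/-- The image of a point over a larger field is a point of `V = 0`. -/
theorem onV {k K : Type} [Field k] [Field K] [Algebra k K] [IsAlgClosed K] {m M e : ℕ}
    {V : Set (MvPolynomial (Fin (M + 1)) k)} {W : Set (MvPolynomial (Fin (m + 1)) K)}
    {G : Fin (M + 1) → MvPolynomial (Fin (m + 1)) K} (hG : Morphism V W G e)
    {L : Type} [Field L] [Algebra K L] {f : Fin (m + 1) → L} (hf : ∀ H ∈ W, aeval f H = 0)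
    {H : MvPolynomial (Fin (M + 1)) k} (hH : H ∈ V) :
    aeval (image G f) (map (algebraMap k K) H) = 0 := by
  have hcomp : ∀ (E : Type) [Field E] [Algebra K E] (v : Fin (m + 1) → E),
      aeval v (bind₁ G (map (algebraMap k K) H)) = aeval (image G v) (map (algebraMap k K) H) :=
    fun E _ _ v => aeval_bind₁ v G _
  have h1 : bind₁ G (map (algebraMap k K) H) ∈ (Ideal.span W).radical := by
    rw [← vanishingIdeal_zeroLocus_eq_radical (K := K), mem_vanishingIdeal_iff]
    intro x hx
    rw [mem_zeroLocus_iff] at hx
    have h2 := hG.maps x (fun H' hH' => hx _ (Ideal.subset_span hH')) H hH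
    rw [hcomp, aeval_map_algebraMap]
    exact h2
  obtain ⟨N, hN⟩ := Ideal.mem_radical_iff.1 h1
  have h4 : Ideal.span W ≤ RingHom.ker (aeval f :
      MvPolynomial (Fin (m + 1)) K →ₐ[K] L).toRingHom := by
    rw [Ideal.span_le]
    intro H' hH'
    exact hf H' hH'
  have h5 : aeval f (bind₁ G (map (algebraMap k K) H) ^ N) = 0 := h4 hN
  rw [map_pow, hcomp] at h5
  exact pow_eq_zero_iff_of_pos_or h5
where
  pow_eq_zero_iff_of_pos_or {L : Type} [Field L] {a : L} {N : ℕ} (h : a ^ N = 0) : a = 0 := by
    by_contra h1
    exact pow_ne_zero N h1 h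

/-- The degree of the map to its image, for the map from a curve with function field `L` to a
projective space that is given by the vector `x`: the degree of `L` over the field generated by the
ratios of the coordinates (`0` if the map is constant). -/
noncomputable def mapDegree (K : Type) {L : Type} [Field K] [Field L] [Algebra K L] {M : ℕ}
    (x : Fin (M + 1) → L) : ℕ := Module.finrank (coords K x) L

theorem result {k : Type} [Field k] [CharZero k] {M n q : ℕ}
    -- the variety
    (V : Set (MvPolynomial (Fin (M + 1)) k)) (hV : ∀ H ∈ V, ∃ e, H.IsHomogeneous e)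
    (hn : DimLE V n)
    -- the degrees
    (d : Fin q → ℕ) (hd : ∀ b, 0 < d b) (hq : n + 1 ≤ q)
    (K : Type) [Field K] [Algebra k K] [IsAlgClosed K] :
    ∃ (Φ : MvPolynomial (Index M d) k) (B : ℕ), Φ ≠ 0 ∧ 0 < B ∧
      ∀ F : Fin q → MvPolynomial (Fin (M + 1)) K, General Φ F →
        ∀ (m e : ℕ) (W : Set (MvPolynomial (Fin (m + 1)) K))
          (G : Fin (M + 1) → MvPolynomial (Fin (m + 1)) K), Morphism V W G e →
        ∀ C : Finset (Fin q), C ≠ Finset.univ →
          ∀ (L : Type) [Field L] [Algebra K L] [IsFF K L] (S : Finset (Place K L))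
            (f : Fin (m + 1) → L), OrbifoldMap W G e d F C B S f →
              (2 * n + 1 ≤ ∑ b, d b + C.card →
                e * pht K f ≤ B * max (canDeg K L + S.card) 0) ∧
              (2 * n ≤ ∑ b, d b + C.card →
                e * pht K f ≤ B * max (canDeg K L + S.card) (mapDegree K (image G f) : ℤ)) := by
  classical
  have hK : CharZero K := charZero_of_injective_algebraMap (algebraMap k K).injective
  obtain ⟨ℓ, hℓ, hℓ0⟩ := hn
  obtain ⟨Φ, hΦ, B₀, h1⟩ := Pool.Agent.U582.NP.strong Pool.Agent.U582.NP.t_FAM
    Pool.Agent.U582.NP.t_LG Pool.Agent.U582.NP.t_WS (k := K) hV hℓ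
    (Pool.Agent.NH29.GN.Fn.noZero_of_points hℓ0) hq hd
  refine ⟨Φ, 2 * B₀ * ∑ b, d b + 1, hΦ, Nat.succ_pos _,
    fun F hF m e W G hG C hC L _ _ _ S f hf => ?_⟩
  have hno : ∀ y : Fin (m + 1) → K, (∀ H ∈ W, aeval y H = 0) → (∀ j, aeval y (G j) = 0) → y = 0 :=
    fun y hy h2 => hG.noZero y hy (funext h2)
  have hpord : ∀ P : Place K L, pord P (image G f) = e * pord P f := fun P =>
    (Pool.Agent.U582.GK.pord_comp hG.degree hno hG.forms hf.ne hf.onW P).1
  have hpht : pht K (image G f) = e * pht K f :=
    Pool.Agent.U582.GK.pht_comp hG.degree hno hG.forms hf.ne hf.onW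
  have hx : image G f ≠ 0 := by
    obtain ⟨b, -, hb⟩ := Finset.exists_of_ssubset (Finset.ssubset_univ_iff.2 hC)
    intro h0
    refine hf.off b hb ?_
    rw [h0]
    have h2 := Pool.Agent.U582.GK.aeval_smul (hF.1 b) (0 : L) (0 : Fin (M + 1) → L)
    have h3 : (fun i => (0 : L) * (0 : Fin (M + 1) → L) i) = 0 := by
      funext i
      simp
    rw [h3, zero_pow (hd b).ne', zero_mul] at h2
    exact h2
  have hfrm : ∀ b, aeval (image G f) (Pool.Agent.NH29.GN.IntP.frm
      (fun s : Pool.Agent.NH29.GN.Idx M d => coeff s.2.1 (F s.1)) b) =
        aeval (image G f) (F b) := by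
    intro b
    rw [Pool.Agent.NH29.GN.IntP.aeval_frm, aeval_def]
    exact (Pool.Agent.NH29.GN.Stc.eval₂_form (algebraMap K L) (image G f) (hF.1 b)).symm
  have hge : ∀ b, b ∉ C → ∀ P : Place K L,
      d b * pord P (image G f) ≤ P.ord (aeval (image G f) (F b)) := by
    intro b hb P
    rcases ge_form P (image G f) (hF.1 b) fun α _ => Ge.const _ with h2 | h2
    · exact absurd h2 (hf.off b hb)
    · exact h2
  have hm : ∀ b, b ∉ C → ∀ P ∉ S,
      P.ord (aeval (image G f) (F b)) = d b * pord P (image G f) ∨
        d b * pord P (image G f) + (2 * B₀ * ∑ b, d b + 1 : ℕ) ≤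
          P.ord (aeval (image G f) (F b)) := by
    intro b hb P hP
    have h3 := hf.contact b hb P hP
    rw [hpord P]
    omega
  have hint : ∀ N : Finset (Place K L), (∀ b, b ∉ C → ∀ P ∉ N,
      P.ord (aeval (image G f) (F b)) = d b * pord P (image G f)) →
      Pool.Agent.U582.NP.Int (MvPolynomial.map (algebraMap k K) '' V)
        (Pool.Agent.NH29.GN.IntP.frm
          (fun s : Pool.Agent.NH29.GN.Idx M d => coeff s.2.1 (F s.1))) d C N (image G f) := by
    intro N hN
    refine ⟨hx, ?_, fun c hc => ?_, fun b hb => ?_, fun b hb Q hQ => ?_⟩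
    · rintro _ ⟨H, hH, rfl⟩
      exact onV hG hf.onW hH
    · rw [hfrm]
      exact hf.onC c hc
    · rw [hfrm]
      exact hf.off b hb
    · rw [hfrm]
      exact hN b hb Q hQ
  obtain ⟨h4, h5⟩ := h1 _ hF.2 C hC
  constructor
  · intro hsz
    have h6 := Pool.Agent.U582.NP.orbm (B₀ := B₀) 0 le_rfl d hd C hC
      (fun b => aeval (image G f) (F b)) hx hge S hm
      fun N hN => h4 hsz L N (image G f) (hint N hN)
    rwa [hpht] at h6
  · intro hsz
    have h6 := Pool.Agent.U582.NP.orbm (B₀ := B₀) (mapDegree K (image G f) : ℤ)
      (Int.natCast_nonneg _) d hd C hC (fun b => aeval (image G f) (F b)) hx hge S hm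
      fun N hN => h5 hsz L N (image G f) (hint N hN)
    rwa [hpht] at h6

end Pool.Agent.Results.MP_70ba79_ag.DimensionPlusOneComponents
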