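import Pool.Agent.U723.GT.Cov

/-!
MP_70ba79_ag, Q1, for all affine varieties which are quasi-finite over a moduli space of rational maps of
the projective line with a marked point of large exact period.

`k` is any algebraically closed field of characteristic zero, `d ≥ 2`.

The space `V d n k` (`Pool/Agent/Q41/GT/Mod.lean`) is the set of the `x` in `k ^ (2 d - 1)` such that
`num d x`, of degree less than `d`, with the coefficients `x (inl i)`, and
`den d x = X ^ d + … + x (inr 0) X + num d x (0)` are coprime, and `∞` has the exact period `n` for the map
`f = num d x / den d x` of degree `d`. So `f(∞) = 0` and `f(0) = 1`, and for `n ≥ 3` each conjugacy class of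
pairs (map of degree `d`, point of exact period `n`) has exactly one such representative: `V d n k` is the
moduli space of these pairs, an affine variety. All its components have dimension `2 d - 2`.

`QFin d n I J U` (`Pool/Agent/Q41/GT/Stm6.lean`): `U` is a locally closed subset of affine space, given by the
equations `F = 0`, `F` in `I`, and the condition that `G ≠ 0` for some `G` in `J`, and the projection to the
coordinates in `Sg d` is a morphism `U → V d n k` with finite fibres. By Zariski's main theorem all varieties
with a quasi-finite morphism to `V d n k` are of this form; among them are the moduli spaces of maps with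
further marked points, critical points or multipliers, and all closed subvarieties and finite covers of
them, ramified or not. A solution `x` of the equations and the condition with coordinates in a function field
`L` of one variable over `k` (`IsFF k L`) is a morphism from an open subset of the smooth projective curve with
function field `L` to `U`. All morphisms from affine curves to `U` are of this form.

`GeneralType k K w`: the transcendence degree of `K` is `w` and for some `m > 0` there are `w + 1` rational
`m`-canonical forms, regular at all prime divisors of all models of `K`, whose ratios are of transcendence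
degree `w`. `canDeg k L = 2 g - 2`; `hgt k (x s)` is the number of the poles (in the projective curve) of the
coordinate `x s`, its degree; `hom e x` are the homogeneous coordinates `(1 : x s : …)` and
`pht k (hom e x)` is the degree of the morphism from the projective curve to the projective closure of `U`,
so at least the degree of the closure of the image.

Theorem. For every `d ≥ 2` there is `B` such that for all `n ≥ B` the space `V d n ℂ` is not empty and for all
`k`:

(1) all components of `V d n k` are of general type, of dimension `2 d - 2`;

(2) for all `U` with a quasi-finite morphism to `V d n k`, all irreducible infinite subsets `W` of `U` (with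
prime vanishing ideal `P`) are of general type, so of log general type, and there is a constant `C` such that
all morphisms from a smooth affine curve of genus `g` with any number `s` of punctures to `U` have degree at
most `C max(2 g - 2, 0)`.

So Q1 holds for all these varieties, with `Exc = ∅` and `β(χ) = C max(χ, 0)`, and the number of punctures is
not needed. In particular there are no nonconstant morphisms from open subsets of curves of genus at most `1`.

Proof of the degree bound. The coordinates `x s` with `s` in `Sg d` are bounded by the theorem of project GT
(starting files). By noetherian induction over the closure of `U` a bound for all coordinates is proved: at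
the generic point `y` of a component each coordinate satisfies an algebraic equation over the polynomials
in the coordinates in `Sg d`; the equation specialises outside the zero set of one polynomial `h`, and
there the degree of a coordinate is bounded by the degrees of the coefficients; the points with `h = 0`
belong to smaller closed subsets.
-/

set_option autoImplicit false

namespace Pool.Agent.Results.MP_70ba79_ag.MarkedPeriodicDegrees

open FF
open Pool.Agent.Q41.GT (V Sg QFin)
open Pool.Agent.W602.GT (GeneralType)
open Pool.Agent.W603.LV (hgt canDeg)
open Pool.Agent.W603.PV (pht)
open Pool.Agent.U723.GT (hom)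

/-- All components of `V`, given by the minimal primes `P` of its vanishing ideal, are of general type, of
dimension `w`. -/
def ComponentsGeneral (k σ : Type) [Field k] (V : Set (σ → k)) (w : ℕ) : Prop :=
  ∀ (P : Ideal (MvPolynomial σ k)) [P.IsPrime],
    P ∈ (MvPolynomial.vanishingIdeal k V).minimalPrimes →
    GeneralType k (FractionRing (MvPolynomial σ k ⧸ P)) w

/-- All irreducible infinite subsets `W` of `U` (with prime vanishing ideal `P`) are of general type. -/
def SubvarietiesGeneral (k σ : Type) [Field k] (U : Set (σ → k)) : Prop :=
  ∀ (P : Ideal (MvPolynomial σ k)) [P.IsPrime], ∀ W ⊆ U, W.Infinite →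
    P = MvPolynomial.vanishingIdeal k W →
    ∃ w, 1 ≤ w ∧ GeneralType k (FractionRing (MvPolynomial σ k ⧸ P)) w

/-- `x` is a point with coordinates in the extension `L` of `k` of the locally closed set with the equations
`I` and the inequations `J`; if `L` is the function field of a curve this is a morphism from an open subset
of the curve. -/
def IsPoint {k σ L : Type} [Field k] [Field L] [Algebra k L] (I J : Set (MvPolynomial σ k))
    (x : σ → L) : Prop :=
  (∀ F ∈ I, MvPolynomial.aeval x F = 0) ∧ ∃ G ∈ J, MvPolynomial.aeval x G ≠ 0

/-- All morphisms `x` from open subsets of curves of genus `g` to the locally closed set with the equations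
`I` and the inequations `J` have coordinates of degree at most `C max(2 g - 2, 0)`, and have at most this
degree as maps to the projective closure. -/
def DegreesBounded (k σ : Type) [Field k] (I J : Set (MvPolynomial σ k)) (C : ℕ) : Prop :=
  ∀ (L : Type) [Field L] [Algebra k L] [IsFF k L] (x : σ → L), IsPoint I J x →
    (∀ s, hgt k (x s) ≤ C * max (canDeg k L) 0) ∧
    ∀ (M : ℕ) (e : Fin M ≃ σ), pht k (hom e x) ≤ C * max (canDeg k L) 0

/-- See the explanation at the beginning of the file. -/
theorem result (d : ℕ) (hd : 2 ≤ d) : ∃ B : ℕ, ∀ n : ℕ, B ≤ n →
    (V d n ℂ).Nonempty ∧ ∀ (k : Type) [Field k] [IsAlgClosed k] [CharZero k],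
    ComponentsGeneral k (Sg d) (V d n k) (2 * d - 2) ∧
    ∀ (τ : Type) [Fintype τ] (I J : Set (MvPolynomial (τ ⊕ Sg d) k)) (U : Set (τ ⊕ Sg d → k)),
      QFin d n I J U → SubvarietiesGeneral k (τ ⊕ Sg d) U ∧
      ∃ C : ℕ, DegreesBounded k (τ ⊕ Sg d) I J C := by
  obtain ⟨B, hB⟩ := Pool.Agent.U723.GT.all_degrees d hd
  refine ⟨B, fun n hn => ⟨(hB n hn).1, fun k _ _ _ => ?_⟩⟩
  obtain ⟨h1, h2⟩ := (hB n hn).2 k
  refine ⟨fun P _ hP => h1 P hP, fun τ _ I J U hU => ?_⟩
  obtain ⟨h3, C, hC⟩ := h2 τ I J U hU
  exact ⟨fun P _ W hW hinf hP => h3 P W hW hinf hP, C, fun L _ _ _ x hx => hC L x hx.1 hx.2⟩

end Pool.Agent.Results.MP_70ba79_ag.MarkedPeriodicDegrees
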