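import Pool.Agent.U207.QH.Sum

/-!
# Degrees of affine curves in affine varieties of log general type: intersections of quadrics suffice

(1) Let `U = V(S) ∖ {H = 0}` be any affine variety in `P^n`, `n ≥ 1` (any dimension and any
singularities; `H` a form of positive degree, `S` a set of forms of degree at most `d`, `d ≥ 3`), and
`v : P^n → P^N` the Veronese embedding of degree `d`. For all `c ≥ (2 (N + 1)^3 + 6 N + 5)^2` there are
quadratic forms `P_i` and linear forms `ℓ_i`, `i < c`, depending on `S` only, and a form `H'` of positive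
degree on `P^N`, such that the covering of `P^N` with group `(ℤ/2)^c`

`Y : x_i^2 = P_i(h_0, …, h_N), i < c`, in `P^{N+c}`,

is a smooth complete intersection of `c` quadrics, `P_i = ℓ_i^2` on `v(V(S))`, and the smooth affine
variety `W = Y ∖ {H'(h) = 0}`, a finite covering of the affine variety `P^N ∖ {H' = 0}`, contains the
`2^c` copies `x_i = ± ℓ_i(h)`, `h ∈ v(U)`, of `U` as closed subvarieties. All closed subvarieties of `W` of
positive dimension which are not of log general type are in these copies, and for some number `A` all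
morphisms from curves of genus `g` (without any finite set of points) to `W` have degree at most
`A max (2 g - 2, 0)` or are in the copies.

(2) Let `E N` be infinite sets of numbers. Q1 for all irreducible affine varieties (singular ones
included) is equivalent to the following statement on the smooth affine varieties
`W = Y ∖ {H(h) = 0}`, where `Y` is a smooth complete intersection of this form with `c ∈ E N` and `H` is
any form of positive degree on `P^N`: no irreducible component of positive dimension of the smallest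
closed subset of `W` outside of which the degrees of the curves are bounded in terms of `2 g - 2 + s` is of
log general type.

(Morphisms which are birational onto their image suffice by the formula of Riemann and Hurwitz.)

Proof. See `Pool/Agent/U207/QC` and `Pool/Agent/U207/QH`. `v(V(S))` is given by quadratic forms whose
Jacobian matrix has large rank, `P_i = (∑_j a_i^j h_j)^2 + ∑_t a_i^{B + κ t} Q_t(h)`, where the `Q_t` are
generic combinations of these forms and the `a_i` are generic numbers. `P_i(h)` is the value at the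
node `a_i` of a polynomial `F_h` in one variable with coefficients depending on `h`. Along an algebraic
curve of genus `g`, the method of Büchi's problem (Vojta, Pasten) shows that `F_h = q^2 H`, where the
ratios of the values of `H` have degree at most a constant times `max (2 g - 2, 0)`. An argument with the
derivative shows that the `h_i / h_0` are algebraic over the field generated by these ratios unless all
`Q_t(h)` are zero, and Noetherian induction gives the bound for their degrees, uniformly for all curves.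
-/

set_option autoImplicit false

namespace Pool.Agent.Results.MP_70ba79_ag.QuadricCoversSuffice

open MvPolynomial FF
open Pool.Agent.W602.GT (SubVar GeneralType)
open Pool.Agent.W603.LV (canDeg)
open Pool.Agent.W603.PV (pht)
open Pool.Agent.N254.SQ (IsForm Eqs Component LogGeneral OnSpecialQ OnDegreesQ Monomials veronese)
open Pool.Agent.U207.QC (hI xI coverForm coverEqs SmoothCover Signs onSheet)

/-- forms of positive degree -/
def PosForm {n : ℕ} (H : MvPolynomial (Fin (n + 1)) ℂ) : Prop := ∃ e, 1 ≤ e ∧ H.IsHomogeneous e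

/-- Q1 for all irreducible affine varieties of positive dimension, smooth or not: `V ∖ {H = 0}`, where
`V` is the closed subset of `P^n` with function field `L` and generic point `y`, and `H` is a form of
positive degree with `H(y) ≠ 0`. -/
def LangVojtaCurves : Prop :=
  ∀ (n : ℕ) (H : MvPolynomial (Fin (n + 1)) ℂ), PosForm H →
    ∀ (L : Type) [Field L] [Algebra ℂ L] (w : ℕ) (y : Fin (n + 1) → L), 1 ≤ w →
      SubVar (fun p : (∅ : Set (MvPolynomial (Fin (n + 1)) ℂ)) => (p : MvPolynomial (Fin (n + 1)) ℂ))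
        L w y → aeval y H ≠ 0 → LogGeneral {H} L w y →
        ∃ G : MvPolynomial (Fin (n + 1)) ℂ, IsForm G ∧ aeval y G ≠ 0 ∧ OnDegreesQ (Eqs y) {H} G

/-- no irreducible component of positive dimension of the exceptional set of `Y ∖ {H(h) = 0}`,
`Y = {x_i ^ 2 = P_i(h)}`, for the degrees of affine curves is of log general type -/
def NoComponent {N c : ℕ} (P : Fin c → MvPolynomial (Fin (N + 1)) ℂ)
    (H : MvPolynomial (Fin (N + 1)) ℂ) : Prop :=
  ∀ (L : Type) [Field L] [Algebra ℂ L] (w : ℕ) (y : Fin (N + c + 1) → L), 1 ≤ w →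
    SubVar (coverForm P) L w y → aeval y (rename (hI N c) H) ≠ 0 →
      LogGeneral {rename (hI N c) H} L w y →
      ¬ Component (OnDegreesQ (coverEqs P) {rename (hI N c) H}) y

section proof

open Pool.Agent.N254.SQ (NotIn)
open Pool.Agent.U207.QC (ClsC clsC_affine)

/-- one form -/
theorem notIn_iff {n : ℕ} {H : MvPolynomial (Fin (n + 1)) ℂ} {L : Type} [Field L] [Algebra ℂ L]
    {y : Fin (n + 1) → L} : NotIn {H} y ↔ aeval y H ≠ 0 := by
  unfold NotIn
  constructor
  · rintro ⟨F, hF, h⟩
    rw [Set.mem_singleton_iff] at hF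
    rwa [hF] at h
  · intro h
    exact ⟨H, rfl, h⟩

/-- the class of affine varieties -/
theorem cls_pos : ClsC (fun n => {T : Set (MvPolynomial (Fin (n + 1)) ℂ) |
    ∃ H, PosForm H ∧ T = {H}}) := by
  have h := clsC_affine
  have e : (fun n => {T : Set (MvPolynomial (Fin (n + 1)) ℂ) |
      ∃ (e : ℕ) (H : MvPolynomial (Fin (n + 1)) ℂ), 1 ≤ e ∧ H.IsHomogeneous e ∧ T = {H}}) =
      fun n => {T : Set (MvPolynomial (Fin (n + 1)) ℂ) | ∃ H, PosForm H ∧ T = {H}} := by
    funext n
    ext T
    constructor
    · rintro ⟨e, H, h1, h2, h3⟩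
      exact ⟨H, ⟨e, h1, h2⟩, h3⟩
    · rintro ⟨H, ⟨e, h1, h2⟩, h3⟩
      exact ⟨e, H, h1, h2, h3⟩
  rw [e] at h
  exact h

end proof

open Pool.Agent.N254.SQ (pull eval_pull) in
open Pool.Agent.U207.QC in
open Pool.Agent.U207.QH in
theorem result :
    (∀ n d : ℕ, 1 ≤ n → 3 ≤ d → ∃ (N : ℕ) (m : Fin (N + 1) → Fin (n + 1) → ℕ),
      Monomials n N d m ∧ ∀ c, (2 * (N + 1) ^ 3 + 6 * N + 5) ^ 2 ≤ c →
        ∀ S : Set (MvPolynomial (Fin (n + 1)) ℂ), (∀ p ∈ S, ∃ e ≤ d, p.IsHomogeneous e) →
        ∃ P ℓ : Fin c → MvPolynomial (Fin (N + 1)) ℂ,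
          (∀ i, (P i).IsHomogeneous 2) ∧ (∀ i, (ℓ i).IsHomogeneous 1) ∧ SmoothCover P ∧
          (∀ x : Fin (n + 1) → ℂ, (∀ p ∈ S, eval x p = 0) →
            ∀ i, eval (veronese m x) (P i) = eval (veronese m x) (ℓ i) ^ 2) ∧
          (∃ A : ℕ, ∀ (E : Type) [Field E] [Algebra ℂ E] [IsFF ℂ E] (y : Fin (N + c + 1) → E),
            y ≠ 0 → (∀ i, aeval y (coverForm P i) = 0) →
            pht ℂ y ≤ A * max (canDeg ℂ E) 0 ∨
              ∃ (ℓ' : Fin c → MvPolynomial (Fin (N + 1)) ℂ) (x : Fin (n + 1) → E) (c₀ : E),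
                Signs ℓ ℓ' ∧ x ≠ 0 ∧ c₀ ≠ 0 ∧ (∀ p ∈ S, aeval x p = 0) ∧
                y ∘ hI N c = c₀ • veronese m x ∧
                ∀ i, y (xI N c i) = c₀ * aeval (veronese m x) (ℓ' i)) ∧
          (∀ (L : Type) [Field L] [Algebra ℂ L] (w : ℕ) (y : Fin (N + c + 1) → L), 1 ≤ w →
            SubVar (coverForm P) L w y → GeneralType ℂ L w ∨
              ∃ (ℓ' : Fin c → MvPolynomial (Fin (N + 1)) ℂ) (x : Fin (n + 1) → L) (c₀ : L),
                Signs ℓ ℓ' ∧ x ≠ 0 ∧ c₀ ≠ 0 ∧ (∀ p ∈ S, aeval x p = 0) ∧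
                y ∘ hI N c = c₀ • veronese m x ∧
                ∀ i, y (xI N c i) = c₀ * aeval (veronese m x) (ℓ' i)) ∧
          ∀ H : MvPolynomial (Fin (n + 1)) ℂ, PosForm H →
            ∃ H' : MvPolynomial (Fin (N + 1)) ℂ, PosForm H' ∧
              (∀ x : Fin (n + 1) → ℂ, eval (veronese m x) H' = 0 ↔ eval x H = 0) ∧
              ∀ G, IsForm G →
                (OnDegreesQ (coverEqs P) {rename (hI N c) H'} G ↔
                  ∀ ℓ', Signs ℓ ℓ' → OnDegreesQ S {H} (onSheet m ℓ' G)) ∧
                (OnSpecialQ (coverEqs P) {rename (hI N c) H'} G ↔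
                  ∀ ℓ', Signs ℓ ℓ' → OnSpecialQ S {H} (onSheet m ℓ' G))) ∧
    ∀ E : ℕ → Set ℕ, (∀ N, (E N).Infinite) →
      (LangVojtaCurves ↔
        ∀ (N c : ℕ) (P : Fin c → MvPolynomial (Fin (N + 1)) ℂ), c ∈ E N →
          (∀ i, (P i).IsHomogeneous 2) → SmoothCover P →
          ∀ H : MvPolynomial (Fin (N + 1)) ℂ, PosForm H → NoComponent P H) := by
  refine ⟨?_, fun E hE => ?_⟩
  · intro n d hn hd
    obtain ⟨N, m, hm, -, h⟩ := consA n d hn hd
    refine ⟨N, m, ⟨hm.deg, hm.inj, hm.surj⟩, fun c hc S hS1 => ?_⟩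
    obtain ⟨P, ℓ, hsm, hg⟩ := h c hc S hS1
    refine ⟨P, ℓ, hg.toC.homP, hg.toC.homL, hsm, fun x hx i => hg.toC.sub ℂ x hx i,
      alg_sheet hg, sub_sheet hg.toC, fun F hF => ?_⟩
    obtain ⟨T', ⟨F', hF', rfl⟩, hL⟩ := cls_pos.cls.lift n N d m hm (by omega) {F} ⟨F, hF, rfl⟩
    have hp : pull m F' = F ^ d := by
      obtain ⟨F₁, hF₁, e, -, -, h⟩ := hL.up F rfl
      rw [Set.mem_singleton_iff] at hF₁
      rwa [hF₁] at h
    refine ⟨F', hF', ?_, ?_⟩
    · intro x
      have h1 : eval (veronese m x) F' = eval x F ^ d := by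
        have h2 := eval_pull (m := m) x F'
        rw [hp, map_pow] at h2
        exact h2.symm
      rw [h1, pow_eq_zero_iff (by omega)]
    · intro G hG
      have h1 := covA_degrees n N d c m S P ℓ hg {F} {F'} hL G hG
      have h2 := covT_special n N d c m S P ℓ hg.toC {F} {F'} hL G hG
      rw [Set.image_singleton] at h1 h2
      exact ⟨h1, h2⟩
  · have h := quasi_halfA exc0_degrees covA_degrees cls_pos hE
    constructor
    · intro h3
      have h4 := h.1 (by
        rintro n _ ⟨F, hF, rfl⟩ L _ _ w y hw hy hn hlg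
        exact h3 n F hF L w y hw hy (notIn_iff.1 hn) hlg)
      intro N c P hc hP hsm F hF L _ _ w y hw hy hn hlg
      have h5 := h4 N c P hc hP hsm {F} ⟨F, hF, rfl⟩ L w y hw hy
      rw [Set.image_singleton] at h5
      exact h5 (notIn_iff.2 hn) hlg
    · intro h3 n F hF L _ _ w y hw hy hn hlg
      refine h.2 ?_ n {F} ⟨F, hF, rfl⟩ L w y hw hy (notIn_iff.2 hn) hlg
      rintro N c P hc hP hsm _ ⟨F', hF', rfl⟩ L _ _ w y hw hy hn hlg
      rw [Set.image_singleton] at hn hlg ⊢
      exact h3 N c P hc hP hsm F' hF' L w y hw hy (notIn_iff.1 hn) hlg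

end Pool.Agent.Results.MP_70ba79_ag.QuadricCoversSuffice
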